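import Pool.Agent.Q167.HM.Main

/-!
# The extension conjecture in `ℝ³` on average over one-variable Haar multipliers

Let `q > 3` and `f ∈ L^q` on the square `Q = (-1/2, 1/2]²`, which contains the disc `B(0, 1/2)`.
Expand `f` into Haar functions of the first variable only,
`f(x₁, x₂) = m(x₂) + ∑_{n, k} h_{n,k}(x₁) c_{n,k}(x₂)`, where `m` and `c_{n,k}` are functions of the
second variable.  With `E` the extension operator of the paraboloid, the square function of the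
pieces, `(|E m|² + ∑_{n,k} |E (h_{n,k} ⊗ c_{n,k})|²)^{1/2}`, has `L^q(ℝ³)` norm at most
`C(q) ‖f‖_q`.  Hence the mean over all signs of `‖E T_ε f‖_q^q` is at most `C(q) ‖f‖_q^q`, where
`T_ε` multiplies the pieces by `ε_{n,k} λ_{n,k}`, for any `|λ_{n,k}| ≤ 1`.  The signs depend on
the dyadic interval of the first variable only; `c_{n,k}` is arbitrary in the second variable.
-/

set_option autoImplicit false

namespace Pool.Agent.Results.MP_5ab805_an.OneVariableHaar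

open MeasureTheory Set Complex
open scoped ENNReal NNReal

/-- The Fourier extension operator of the paraboloid in `ℝ³`,
`E f (ξ) = ∫ f(x₁, x₂) exp (- i (x₁ ξ₁ + x₂ ξ₂ + (x₁² + x₂²) ξ₃)) dx₁ dx₂`. -/
noncomputable def E (f : ℝ × ℝ → ℂ) (ξ : ℝ × ℝ × ℝ) : ℂ :=
  ∫ x : ℝ × ℝ, cexp (-I * (x.1 * ξ.1 + x.2 * ξ.2.1 + (x.1 ^ 2 + x.2 ^ 2) * ξ.2.2)) * f x

/-- The square `(-1/2, 1/2]²`. -/
def Q : Set (ℝ × ℝ) := Ioc (-1 / 2 : ℝ) (1 / 2) ×ˢ Ioc (-1 / 2 : ℝ) (1 / 2)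

/-- The dyadic points `-1/2 + k/2^n`. -/
noncomputable def pt (n k : ℕ) : ℝ := -1 / 2 + k / 2 ^ n

/-- The `L²`-normalised Haar function of the dyadic interval
`(-1/2 + k/2^n, -1/2 + (k+1)/2^n]`: it is `2^{n/2}` on the left half and `-2^{n/2}` on the right
half. -/
noncomputable def haar (n k : ℕ) (t : ℝ) : ℝ :=
  Real.sqrt (2 ^ n) * ((Ioc (pt (n + 1) (2 * k)) (pt (n + 1) (2 * k + 1))).indicator 1 t -
    (Ioc (pt (n + 1) (2 * k + 1)) (pt (n + 1) (2 * k + 2))).indicator 1 t)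

/-- The mean `∫ f(t, x₂) dt` in the first variable, as a function on the square. -/
noncomputable def mean (f : ℝ × ℝ → ℂ) (x : ℝ × ℝ) : ℂ :=
  (Ioc (-1 / 2 : ℝ) (1 / 2)).indicator (fun _ => ∫ t, f (t, x.2)) x.1

/-- The Haar component `h_{n,k}(x₁) ∫ h_{n,k}(t) f(t, x₂) dt`. -/
noncomputable def comp (f : ℝ × ℝ → ℂ) (n k : ℕ) (x : ℝ × ℝ) : ℂ :=
  (haar n k x.1 : ℂ) * ∫ t, (haar n k t : ℂ) * f (t, x.2)

/-- The index set of the first `N` generations of Haar functions of one variable; `none` stands for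
the mean. -/
abbrev Idx (N : ℕ) : Type := Option (Σ n : Fin N, Fin (2 ^ (n : ℕ)))

/-- The sign of a Boolean. -/
def sgn (e : Bool) : ℂ := if e then 1 else -1

/-- The random Haar multiplier in the first variable. -/
noncomputable def T {N : ℕ} (lam : Idx N → ℂ) (ε : Idx N → Bool) (f : ℝ × ℝ → ℂ) (x : ℝ × ℝ) : ℂ :=
  sgn (ε none) * lam none * mean f x +
    ∑ n : Fin N, ∑ k : Fin (2 ^ (n : ℕ)),
      sgn (ε (some ⟨n, k⟩)) * lam (some ⟨n, k⟩) * comp f n k x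

/-- **One-variable Haar multipliers: square function and random signs.** -/
theorem result (q : ℝ) (hq : 3 < q) :
    ∃ C : ℝ≥0, ∀ f : ℝ × ℝ → ℂ, Measurable f → (∀ x, x ∉ Q → f x = 0) →
      (∫⁻ ξ, (‖E (mean f) ξ‖ₑ ^ 2 +
          ∑' n : ℕ, ∑ k : Fin (2 ^ n), ‖E (comp f n k) ξ‖ₑ ^ 2) ^ (q / 2) ≤
        C * ∫⁻ x, ‖f x‖ₑ ^ q) ∧
      ∀ (N : ℕ) (lam : Idx N → ℂ), (∀ i, ‖lam i‖ ≤ 1) →
        ((2 : ℝ≥0∞) ^ Fintype.card (Idx N))⁻¹ * ∑ ε : Idx N → Bool, ∫⁻ ξ, ‖E (T lam ε f) ξ‖ₑ ^ q ≤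
          C * ∫⁻ x, ‖f x‖ₑ ^ q := by
  obtain ⟨C, hC, hCC⟩ := Pool.Agent.Q167.HM.sq_main q hq
  set K := ENNReal.ofReal (Pool.Agent.H728R3.SR.K1 q) with hK
  have hKt : K ≠ ⊤ := ENNReal.ofReal_ne_top
  have hD : K * C + C + 1 ≠ ⊤ :=
    ENNReal.add_ne_top.2 ⟨ENNReal.add_ne_top.2 ⟨ENNReal.mul_ne_top hKt hC, hC⟩, by simp⟩
  refine ⟨(K * C + C + 1).toNNReal, fun f hf h0 => ?_⟩
  rw [ENNReal.coe_toNNReal hD]
  by_cases hW : ∫⁻ x, ‖f x‖ₑ ^ q = ⊤
  · rw [hW, ENNReal.mul_top (by simp)]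
    exact ⟨le_top, fun _ _ _ => le_top⟩
  have hS : Pool.Agent.Q167.HM.Sup f := ⟨hf, h0⟩
  have hi : ∫⁻ x, ‖f x‖ₑ ≠ ⊤ := by
    have h2 := Pool.Agent.Q167.HM.hold_r hS 1 q one_pos (by linarith)
    simp only [ENNReal.rpow_one] at h2
    exact ne_top_of_le_ne_top (ENNReal.rpow_ne_top_of_nonneg (by positivity) hW) h2
  have hmain := hCC f hS hi
  have hE : ∀ g, E g = Pool.Agent.H147R3.PE.ext g := fun g => rfl
  have hme : mean f = Pool.Agent.Q167.HM.mn f := rfl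
  have hco : ∀ n k, comp f n k = Pool.Agent.Q167.HM.hc f n k := fun n k => rfl
  have hsum : ∀ ξ, ‖E (mean f) ξ‖ₑ ^ 2 +
      ∑' n : ℕ, ∑ k : Fin (2 ^ n), ‖E (comp f n k) ξ‖ₑ ^ 2 =
      ‖Pool.Agent.H147R3.PE.ext (Pool.Agent.Q167.HM.mn f) ξ‖ₑ ^ 2 +
      ∑' n : ℕ, ∑ k ∈ Finset.range (2 ^ n),
        ‖Pool.Agent.H147R3.PE.ext (Pool.Agent.Q167.HM.hc f n k) ξ‖ₑ ^ 2 := by
    intro ξ
    simp only [hE, hme, hco, Finset.sum_range]
  refine ⟨?_, fun N lam hlam => ?_⟩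
  · simp only [hsum]
    refine hmain.trans (mul_le_mul_left ?_ _)
    rw [add_comm (K * C) C, add_assoc]
    exact le_self_add
  · -- the components
    set z : Idx N → (ℝ × ℝ × ℝ) → ℂ := fun i ξ => i.elim (lam none * E (mean f) ξ)
      (fun j => lam (some j) * E (comp f j.1 j.2) ξ) with hz
    have hgm : ∀ n k, Integrable (comp f n k) := by
      intro n k
      have h : comp f n k = fun x => Pool.Agent.Q167.HM.box _ _ _ x +
          Pool.Agent.Q167.HM.box _ _ _ x :=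
        funext fun x => Pool.Agent.Q167.HM.hc_eq f n k x
      rw [h]
      exact (Pool.Agent.Q167.HM.box_int _ _ _ (Pool.Agent.Q167.HM.gj_int hS hi n _)).add
        (Pool.Agent.Q167.HM.box_int _ _ _ (Pool.Agent.Q167.HM.gj_int hS hi n _))
    have hmm : Integrable (mean f) := by
      rw [hme, Pool.Agent.Q167.HM.mn_box]
      apply Pool.Agent.Q167.HM.box_int
      refine ⟨(Pool.Agent.Q167.HM.mu_meas hf).aestronglyMeasurable, ?_⟩
      unfold HasFiniteIntegral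
      refine lt_of_le_of_lt (lintegral_mono fun y => Pool.Agent.Q167.HM.mu_bd hS y) ?_
      have h1 := Pool.Agent.Q167.HM.sumP hf.enorm 0
      simp only [pow_zero, Finset.range_one, Finset.sum_singleton] at h1
      exact h1.trans_lt (lt_top_iff_ne_top.2 hi)
    have hlin : ∀ (ε : Idx N → Bool) ξ, E (T lam ε f) ξ =
        ∑ i, (Pool.Agent.H728R3.SR.sg (ε i) : ℂ) * z i ξ := by
      intro ε ξ
      have h1 := Pool.Agent.Q167.HM.ext_lin Finset.univ
        (fun i : Idx N => (Pool.Agent.H728R3.SR.sg (ε i) : ℂ) * lam i)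
        (fun i => i.elim (mean f) (fun j => comp f j.1 j.2)) (fun i _ => by
          cases i with
          | none => exact hmm
          | some j => exact hgm _ _) ξ
      have h2 : T lam ε f = fun x => ∑ i : Idx N,
          (Pool.Agent.H728R3.SR.sg (ε i) : ℂ) * lam i *
            (i.elim (mean f) (fun j => comp f j.1 j.2) : ℝ × ℝ → ℂ) x := by
        funext x
        unfold T
        rw [Fintype.sum_option, Fintype.sum_sigma]
        have hs : ∀ e : Bool, (Pool.Agent.H728R3.SR.sg e : ℂ) = sgn e := by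
          intro e
          unfold Pool.Agent.H728R3.SR.sg sgn
          split_ifs <;> simp
        simp only [hs, Option.elim]
      rw [h2, hE, h1]
      apply Finset.sum_congr rfl
      intro i _
      rw [hz]
      cases i with
      | none => simp only [Option.elim, mul_assoc]; rfl
      | some j => simp only [Option.elim, mul_assoc]; rfl
    have hzb : ∀ ξ, ∑ i, ‖z i ξ‖ₑ ^ 2 ≤
        ‖Pool.Agent.H147R3.PE.ext (Pool.Agent.Q167.HM.mn f) ξ‖ₑ ^ 2 +
        ∑' n : ℕ, ∑ k ∈ Finset.range (2 ^ n),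
          ‖Pool.Agent.H147R3.PE.ext (Pool.Agent.Q167.HM.hc f n k) ξ‖ₑ ^ 2 := by
      intro ξ
      rw [Fintype.sum_option, Fintype.sum_sigma]
      have hb : ∀ (i : Idx N) (w : ℂ), ‖lam i * w‖ₑ ≤ ‖w‖ₑ := by
        intro i w
        rw [enorm_mul]
        have : ‖lam i‖ₑ ≤ 1 := by
          rw [← ofReal_norm]
          exact ENNReal.ofReal_le_one.2 (hlam i)
        calc ‖lam i‖ₑ * ‖w‖ₑ ≤ 1 * ‖w‖ₑ := by gcongr
          _ = ‖w‖ₑ := one_mul _
      refine add_le_add ?_ ?_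
      · exact pow_le_pow_left' (hb none _) 2
      · refine le_trans ?_ (ENNReal.sum_le_tsum (Finset.range N))
        rw [Finset.sum_range (n := N)]
        apply Finset.sum_le_sum
        intro n _
        rw [Finset.sum_range]
        apply Finset.sum_le_sum
        intro k _
        exact pow_le_pow_left' (hb (some ⟨n, k⟩) _) 2
    have hpt : ∀ ξ, ∑ ε : Idx N → Bool, ‖E (T lam ε f) ξ‖ₑ ^ q ≤
        2 ^ Fintype.card (Idx N) * (K * (‖Pool.Agent.H147R3.PE.ext (Pool.Agent.Q167.HM.mn f) ξ‖ₑ ^ 2 +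
        ∑' n : ℕ, ∑ k ∈ Finset.range (2 ^ n),
          ‖Pool.Agent.H147R3.PE.ext (Pool.Agent.Q167.HM.hc f n k) ξ‖ₑ ^ 2) ^ (q / 2)) := by
      intro ξ
      simp only [hlin]
      refine (Pool.Agent.H728R3.SR.khinchine q (by linarith) (fun i => z i ξ)).trans ?_
      refine mul_le_mul_right (mul_le_mul_right ?_ _) _
      exact ENNReal.rpow_le_rpow (hzb ξ) (by linarith)
    have hTm : ∀ ε : Idx N → Bool, Measurable fun ξ => ‖E (T lam ε f) ξ‖ₑ ^ q := by
      intro ε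
      refine (Measurable.enorm ?_).pow_const q
      rw [show E (T lam ε f) = fun ξ => ∑ i, (Pool.Agent.H728R3.SR.sg (ε i) : ℂ) * z i ξ from
        funext (hlin ε)]
      apply Finset.measurable_sum
      intro i _
      apply Measurable.const_mul
      cases i with
      | none => exact (Pool.Agent.Q167.HM.ext_me (Pool.Agent.Q167.HM.mn_meas hf)).const_mul _
      | some j => exact (Pool.Agent.Q167.HM.ext_me (Pool.Agent.Q167.HM.hc_meas hf _ _)).const_mul _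
    rw [← lintegral_finsetSum _ fun ε _ => hTm ε]
    have hc0 : ((2 : ℝ≥0∞) ^ Fintype.card (Idx N)) ≠ 0 := by positivity
    have hct : ((2 : ℝ≥0∞) ^ Fintype.card (Idx N)) ≠ ⊤ := by simp
    calc ((2 : ℝ≥0∞) ^ Fintype.card (Idx N))⁻¹ *
          ∫⁻ ξ, ∑ ε : Idx N → Bool, ‖E (T lam ε f) ξ‖ₑ ^ q
        ≤ ((2 : ℝ≥0∞) ^ Fintype.card (Idx N))⁻¹ * ∫⁻ ξ, 2 ^ Fintype.card (Idx N) *
          (K * (‖Pool.Agent.H147R3.PE.ext (Pool.Agent.Q167.HM.mn f) ξ‖ₑ ^ 2 +
        ∑' n : ℕ, ∑ k ∈ Finset.range (2 ^ n),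
          ‖Pool.Agent.H147R3.PE.ext (Pool.Agent.Q167.HM.hc f n k) ξ‖ₑ ^ 2) ^ (q / 2)) := by
          exact mul_le_mul_right (lintegral_mono hpt) _
      _ = K * ∫⁻ ξ, (‖Pool.Agent.H147R3.PE.ext (Pool.Agent.Q167.HM.mn f) ξ‖ₑ ^ 2 +
        ∑' n : ℕ, ∑ k ∈ Finset.range (2 ^ n),
          ‖Pool.Agent.H147R3.PE.ext (Pool.Agent.Q167.HM.hc f n k) ξ‖ₑ ^ 2) ^ (q / 2) := by
          rw [lintegral_const_mul' _ _ hct, lintegral_const_mul' _ _ hKt, ← mul_assoc,
            ENNReal.inv_mul_cancel hc0 hct, one_mul]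
      _ ≤ K * (C * ∫⁻ x, ‖f x‖ₑ ^ q) := mul_le_mul_right hmain _
      _ ≤ _ := by
          rw [← mul_assoc]
          refine mul_le_mul_left ?_ _
          rw [add_assoc]
          exact le_self_add

end Pool.Agent.Results.MP_5ab805_an.OneVariableHaar
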