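import Pool.Agent.Q167.RS.Swap

/-!
# The extension inequality on average over signs for sums of step functions in one variable

Let `q > 3` and let `E` be the extension operator of the paraboloid in `ℝ³`.  Let `f_1, …, f_N` be
functions on the square `(-1/2, 1/2]²` such that each `f_k`, as a function of one of the two
variables (which one may depend on `k`), is a step function with at most `B` steps; in the other
variable it is arbitrary.  The steps of different `f_k` are unrelated and may overlap.  Then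
`mean_ε ‖E (∑ ε_k f_k)‖_q^q ≤ C(q) B^{q/2} mean_ε ‖∑ ε_k f_k‖_q^q`, the mean over all signs.
-/

set_option autoImplicit false

namespace Pool.Agent.Results.MP_5ab805_an.RademacherStepSums

open MeasureTheory Set Complex
open scoped ENNReal NNReal

/-- The Fourier extension operator of the paraboloid in `ℝ³`,
`E f (ξ) = ∫ f(x₁, x₂) exp (- i (x₁ ξ₁ + x₂ ξ₂ + (x₁² + x₂²) ξ₃)) dx₁ dx₂`. -/
noncomputable def E (f : ℝ × ℝ → ℂ) (ξ : ℝ × ℝ × ℝ) : ℂ :=
  ∫ x : ℝ × ℝ, cexp (-I * (x.1 * ξ.1 + x.2 * ξ.2.1 + (x.1 ^ 2 + x.2 ^ 2) * ξ.2.2)) * f x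

/-- The sign of a Boolean. -/
def sgn (e : Bool) : ℂ := if e then 1 else -1

/-- The data of a function on the square `(-1/2, 1/2]²` which is a step function with at most `B`
steps in one of the variables: the steps are the disjoint intervals `(a_i, b_i]` (possibly empty)
and the values `c_i` are measurable functions of the other variable.  The step variable is the
first one if `first = true` and the second one otherwise. -/
structure StepFn (B : ℕ) where
  first : Bool
  a : Fin B → ℝ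
  b : Fin B → ℝ
  c : Fin B → ℝ → ℂ
  lo : ∀ i, -1 / 2 ≤ a i
  le : ∀ i, a i ≤ b i
  hi : ∀ i, b i ≤ 1 / 2
  disj : ∀ i j, i ≠ j → Disjoint (Ioc (a i) (b i)) (Ioc (a j) (b j))
  meas : ∀ i, Measurable (c i)
  supp : ∀ i y, y ∉ Ioc (-1 / 2 : ℝ) (1 / 2) → c i y = 0

/-- The function: `c_i(x₂)` if `a_i < x₁ ≤ b_i` (and the same with the variables exchanged if
`first = false`), and `0` outside the steps. -/
noncomputable def StepFn.fn {B : ℕ} (s : StepFn B) (x : ℝ × ℝ) : ℂ :=
  if s.first then ∑ i, (Ioc (s.a i) (s.b i)).indicator (fun _ => s.c i x.2) x.1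
  else ∑ i, (Ioc (s.a i) (s.b i)).indicator (fun _ => s.c i x.1) x.2

open Pool.Agent.Q167.HM Pool.Agent.Q167.RS

variable {B : ℕ}

lemma fn_meas (s : StepFn B) : Measurable s.fn := by
  unfold StepFn.fn
  split_ifs
  · exact Finset.measurable_sum _ fun i _ => box_meas _ _ _ (s.meas i)
  · exact Finset.measurable_sum _ fun i _ =>
      (box_meas (s.a i) (s.b i) (s.c i) (s.meas i)).comp measurable_swap

/-- The value is one of the terms. -/
lemma sum_box (s : StepFn B) (x : ℝ × ℝ) :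
    ∑ i, ‖box (s.a i) (s.b i) (s.c i) x‖ₑ ^ 2 = ‖∑ i, box (s.a i) (s.b i) (s.c i) x‖ₑ ^ 2 := by
  by_cases h : ∃ i, x.1 ∈ Ioc (s.a i) (s.b i)
  · obtain ⟨i, hi⟩ := h
    have h0 : ∀ j, j ≠ i → box (s.a j) (s.b j) (s.c j) x = 0 := by
      intro j hj
      unfold box
      rw [indicator_of_notMem]
      exact fun h2 => (Set.disjoint_left.1 (s.disj j i hj)) h2 hi
    rw [Finset.sum_eq_single i, Finset.sum_eq_single i]
    · exact fun j _ hj => h0 j hj
    · exact fun h => absurd (Finset.mem_univ i) h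
    · intro j _ hj
      rw [h0 j hj]
      simp
    · exact fun h => absurd (Finset.mem_univ i) h
  · push Not at h
    have h0 : ∀ j, box (s.a j) (s.b j) (s.c j) x = 0 := by
      intro j
      unfold box
      rw [indicator_of_notMem (h j)]
    simp [h0]

/-- **Rademacher sums of step functions in one variable.** -/
theorem result (q : ℝ) (hq : 3 < q) :
    ∃ C : ℝ≥0, ∀ (N B : ℕ) (s : Fin N → StepFn B),
      ((2 : ℝ≥0∞) ^ N)⁻¹ * ∑ ε : Fin N → Bool,
          ∫⁻ ξ, ‖E (fun x => ∑ k, sgn (ε k) * (s k).fn x) ξ‖ₑ ^ q ≤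
        C * (B : ℝ≥0∞) ^ (q / 2) * (((2 : ℝ≥0∞) ^ N)⁻¹ * ∑ ε : Fin N → Bool,
          ∫⁻ x, ‖∑ k, sgn (ε k) * (s k).fn x‖ₑ ^ q) := by
  obtain ⟨C, hC, hCC⟩ := rs_main q hq
  set K := ENNReal.ofReal (Pool.Agent.H728R3.SR.K1 q) with hK
  have hKt : K ≠ ⊤ := ENNReal.ofReal_ne_top
  have hp2 : (2 : ℝ≥0∞) ^ (q / 2 - 1) ≠ ⊤ :=
    ENNReal.rpow_ne_top_of_nonneg (by linarith) (by simp)
  have hD : K * (2 ^ (q / 2 - 1) * (C + C)) + 1 ≠ ⊤ :=
    ENNReal.add_ne_top.2 ⟨ENNReal.mul_ne_top hKt (ENNReal.mul_ne_top hp2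
      (ENNReal.add_ne_top.2 ⟨hC, hC⟩)), by simp⟩
  refine ⟨(K * (2 ^ (q / 2 - 1) * (C + C)) + 1).toNNReal, fun N B s => ?_⟩
  rw [ENNReal.coe_toNNReal hD]
  have hsg : ∀ e : Bool, sgn e = (Pool.Agent.H728R3.SR.sg e : ℂ) := by
    intro e
    unfold Pool.Agent.H728R3.SR.sg sgn
    split_ifs <;> simp
  simp only [hsg]
  rcases Nat.eq_zero_or_pos B with hB | hB
  · subst hB
    have h0 : ∀ k x, (s k).fn x = 0 := by
      intro k x
      unfold StepFn.fn
      split_ifs <;> simp
    have hE0 : ∀ ξ, E (fun _ => (0 : ℂ)) ξ = 0 := by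
      intro ξ
      unfold E
      simp
    have hq0 : 0 < q := by linarith
    simp [h0, hE0, hq0]
  -- the square function of the family
  set W := ∫⁻ x, (∑ k, ‖(s k).fn x‖ₑ ^ 2) ^ (q / 2) with hW
  have hfm : ∀ k, Measurable (s k).fn := fun k => fn_meas (s k)
  have hWM : W ≤ ((2 : ℝ≥0∞) ^ N)⁻¹ * ∑ ε : Fin N → Bool,
      ∫⁻ x, ‖∑ k, (Pool.Agent.H728R3.SR.sg (ε k) : ℂ) * (s k).fn x‖ₑ ^ q := by
    have hc : ((2 : ℝ≥0∞) ^ N)⁻¹ ≠ ⊤ := by
      rw [ENNReal.inv_ne_top]
      positivity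
    have hm : ∀ ε : Fin N → Bool, Measurable fun x =>
        ‖∑ k, (Pool.Agent.H728R3.SR.sg (ε k) : ℂ) * (s k).fn x‖ₑ ^ q := fun ε =>
      (Finset.measurable_sum _ fun k _ => (hfm k).const_mul _).enorm.pow_const q
    rw [← lintegral_finsetSum _ fun ε _ => hm ε, ← lintegral_const_mul' _ _ hc]
    exact lintegral_mono fun x => kh_low N (fun k => (s k).fn x) q (by linarith)
  have hBpos : (B : ℝ≥0∞) ^ (q / 2) ≠ 0 := by
    rw [Ne, ENNReal.rpow_eq_zero_iff]
    rintro (⟨h, _⟩ | ⟨h, _⟩)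
    · simp only [Nat.cast_eq_zero] at h
      omega
    · exact absurd h (by simp)
  refine le_trans ?_ (mul_le_mul_right hWM _)
  by_cases hWt : W = ⊤
  · rw [hWt, ENNReal.mul_top]
    · exact le_top
    · exact mul_ne_zero (by simp) hBpos
  -- the two families
  set ac : Fin N × Fin B → ℝ := fun p => (s p.1).a p.2 with hac
  set bc : Fin N × Fin B → ℝ := fun p => (s p.1).b p.2 with hbc
  set cc : Bool → Fin N × Fin B → ℝ → ℂ := fun e p =>
    if (s p.1).first = e ∧ (s p.1).a p.2 < (s p.1).b p.2 then (s p.1).c p.2 else 0 with hcc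
  -- comparison of the norms
  have hSS : ∀ e x, SS ac bc (cc e) x ≤ ∑ k, (if (s k).first = e then
      ‖∑ i, box ((s k).a i) ((s k).b i) ((s k).c i) x‖ₑ ^ 2 else 0) := by
    intro e x
    unfold SS
    rw [Fintype.sum_prod_type]
    apply Finset.sum_le_sum
    intro k _
    split_ifs with he
    · rw [← sum_box]
      apply Finset.sum_le_sum
      intro i _
      simp only [hac, hbc, hcc]
      by_cases h : (s k).first = e ∧ (s k).a i < (s k).b i
      · rw [if_pos h]
      · rw [if_neg h, box_eq]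
        simp
    · apply le_of_eq
      apply Finset.sum_eq_zero
      intro i _
      simp only [hac, hbc, hcc]
      rw [if_neg (fun h => he h.1), box_eq]
      simp
  have hSt : ∫⁻ x, SS ac bc (cc true) x ^ (q / 2) ≤ W := by
    apply lintegral_mono
    intro x
    refine ENNReal.rpow_le_rpow ((hSS true x).trans (Finset.sum_le_sum fun k _ => ?_)) (by linarith)
    split_ifs with he
    · apply le_of_eq
      unfold StepFn.fn
      rw [if_pos he]
      rfl
    · exact zero_le
  have hFf : ∫⁻ x : ℝ × ℝ, (∑ k, ‖(s k).fn (x.2, x.1)‖ₑ ^ 2) ^ (q / 2) = W := by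
    rw [hW, Measure.volume_eq_prod]
    exact lintegral_prod_swap (μ := (volume : Measure ℝ)) (ν := (volume : Measure ℝ))
      (fun x : ℝ × ℝ => (∑ k, ‖(s k).fn x‖ₑ ^ 2) ^ (q / 2))
  have hSf : ∫⁻ x, SS ac bc (cc false) x ^ (q / 2) ≤ W := by
    rw [← hFf]
    apply lintegral_mono
    intro x
    refine ENNReal.rpow_le_rpow ((hSS false x).trans (Finset.sum_le_sum fun k _ => ?_))
      (by linarith)
    split_ifs with he
    · apply le_of_eq
      unfold StepFn.fn
      rw [if_neg (by rw [he]; simp)]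
      rfl
    · exact zero_le
  -- integrability
  have hint : ∀ e p, Integrable (cc e p) := by
    intro e p
    simp only [hcc]
    split_ifs with h
    · apply int_of h.2 ((s p.1).meas p.2) ((s p.1).supp p.2) q (by linarith)
      have hle : ∫⁻ x, ‖box ((s p.1).a p.2) ((s p.1).b p.2) ((s p.1).c p.2) x‖ₑ ^ q ≤
          ∫⁻ x, SS ac bc (cc e) x ^ (q / 2) := by
        apply lintegral_mono
        intro x
        have h1 : ‖box ((s p.1).a p.2) ((s p.1).b p.2) ((s p.1).c p.2) x‖ₑ ^ 2 ≤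
            SS ac bc (cc e) x := by
          unfold SS
          have h2 := Finset.single_le_sum (f := fun p => ‖box (ac p) (bc p) (cc e p) x‖ₑ ^ 2)
            (fun _ _ => zero_le) (Finset.mem_univ p)
          refine le_trans (le_of_eq ?_) h2
          simp only [hac, hbc, hcc]
          rw [if_pos h]
        calc _ = (‖box ((s p.1).a p.2) ((s p.1).b p.2) ((s p.1).c p.2) x‖ₑ ^ 2) ^ (q / 2) := by
              rw [← ENNReal.rpow_natCast, ← ENNReal.rpow_mul,
                show (((2 : ℕ) : ℝ) * (q / 2)) = q by push_cast; ring]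
          _ ≤ _ := ENNReal.rpow_le_rpow h1 (by linarith)
      refine ne_top_of_le_ne_top hWt (hle.trans ?_)
      cases e
      · exact hSf
      · exact hSt
    · exact integrable_zero _ _ _
  have hFam : ∀ e, Fam ac bc (cc e) := by
    intro e
    refine ⟨fun p => (s p.1).lo p.2, fun p => (s p.1).hi p.2, fun p => ?_, fun p y hy => ?_,
      hint e⟩
    · simp only [hcc]
      split_ifs
      · exact (s p.1).meas p.2
      · exact measurable_const
    · simp only [hcc]
      split_ifs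
      · exact (s p.1).supp p.2 y hy
      · rfl
  set F : Bool → ℝ × ℝ × ℝ → ℝ≥0∞ := fun e ξ =>
    ∑ p, ‖Pool.Agent.H147R3.PE.ext (box (ac p) (bc p) (cc e p)) ξ‖ₑ ^ 2 with hF
  have hFi : ∀ e, ∫⁻ ξ, F e ξ ^ (q / 2) ≤ C * W := by
    intro e
    refine (hCC (Fin N × Fin B) ac bc (cc e) (hFam e)).trans (mul_le_mul_right ?_ _)
    cases e
    · exact hSf
    · exact hSt
  have hFm : ∀ e, Measurable (F e) := fun e =>
    Finset.measurable_sum _ fun p _ =>
      (ext_me (box_meas _ _ _ ((hFam e).meas p))).enorm.pow_const 2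
  -- the extensions of the functions
  have hbox : ∀ k i, box ((s k).a i) ((s k).b i) ((s k).c i) =
      box (ac (k, i)) (bc (k, i)) (cc (s k).first (k, i)) := by
    intro k i
    simp only [hac, hbc, hcc, true_and]
    split_ifs with h
    · rfl
    · have he : Ioc ((s k).a i) ((s k).b i) = ∅ := Ioc_eq_empty h
      rw [box_eq, box_eq, he]
      simp
  have hfi : ∀ k, Integrable (s k).fn := by
    intro k
    unfold StepFn.fn
    split_ifs
    · apply integrable_finsetSum
      intro i _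
      have := box_int (ac (k, i)) (bc (k, i)) _ (hint (s k).first (k, i))
      rw [← hbox] at this
      exact this
    · apply integrable_finsetSum
      intro i _
      have := box_int (ac (k, i)) (bc (k, i)) _ (hint (s k).first (k, i))
      rw [← hbox] at this
      rw [Measure.volume_eq_prod] at this ⊢
      exact this.swap
  have hEk : ∀ k ξ, ‖Pool.Agent.H147R3.PE.ext (s k).fn ξ‖ₑ ^ 2 ≤
      B * ∑ i, (‖Pool.Agent.H147R3.PE.ext (box (ac (k, i)) (bc (k, i)) (cc true (k, i))) ξ‖ₑ ^ 2 +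
        ‖Pool.Agent.H147R3.PE.ext (box (ac (k, i)) (bc (k, i)) (cc false (k, i)))
          (sw ξ)‖ₑ ^ 2) := by
    intro k ξ
    have hlin : ∀ η, Pool.Agent.H147R3.PE.ext
        (fun x => ∑ i, box ((s k).a i) ((s k).b i) ((s k).c i) x) η =
        ∑ i, Pool.Agent.H147R3.PE.ext (box (ac (k, i)) (bc (k, i)) (cc (s k).first (k, i))) η := by
      intro η
      have h1 := ext_lin Finset.univ (fun _ : Fin B => (1 : ℂ))
        (fun i => box (ac (k, i)) (bc (k, i)) (cc (s k).first (k, i)))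
        (fun i _ => box_int _ _ _ (hint _ _)) η
      simp only [one_mul] at h1
      rw [← h1]
      simp only [hbox]
    cases hf : (s k).first with
    | true =>
      have e1 : (s k).fn = fun x => ∑ i, box ((s k).a i) ((s k).b i) ((s k).c i) x := by
        unfold StepFn.fn
        rw [hf]
        rfl
      rw [e1, hlin, hf]
      refine (sum_sq _).trans (mul_le_mul_right (Finset.sum_le_sum fun i _ => ?_) _)
      exact le_self_add
    | false =>
      set g : ℝ × ℝ → ℂ := fun x => ∑ i, box ((s k).a i) ((s k).b i) ((s k).c i) x with hg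
      have e1 : (s k).fn = fun x : ℝ × ℝ => g (x.2, x.1) := by
        unfold StepFn.fn
        rw [hf]
        rfl
      rw [e1, ext_swap g, hlin, hf]
      refine (sum_sq _).trans (mul_le_mul_right (Finset.sum_le_sum fun i _ => ?_) _)
      exact le_add_self
  have hsum : ∀ ξ, (∑ k, ‖Pool.Agent.H147R3.PE.ext (s k).fn ξ‖ₑ ^ 2) ^ (q / 2) ≤
      (B : ℝ≥0∞) ^ (q / 2) * (2 ^ (q / 2 - 1) * (F true ξ ^ (q / 2) + F false (sw ξ) ^ (q / 2))) := by
    intro ξ
    have h1 : ∑ k, ‖Pool.Agent.H147R3.PE.ext (s k).fn ξ‖ₑ ^ 2 ≤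
        B * (F true ξ + F false (sw ξ)) := by
      refine (Finset.sum_le_sum fun k _ => hEk k ξ).trans (le_of_eq ?_)
      simp only [hF]
      rw [← Finset.mul_sum, Fintype.sum_prod_type, Fintype.sum_prod_type,
        ← Finset.sum_add_distrib]
      congr 1
      apply Finset.sum_congr rfl
      intro k _
      rw [Finset.sum_add_distrib]
    refine (ENNReal.rpow_le_rpow h1 (by linarith)).trans ?_
    rw [ENNReal.mul_rpow_of_nonneg _ _ (by linarith)]
    exact mul_le_mul_right (ENNReal.rpow_add_le_mul_rpow_add_rpow _ _ (by linarith)) _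
  have hsq : ∫⁻ ξ, (∑ k, ‖Pool.Agent.H147R3.PE.ext (s k).fn ξ‖ₑ ^ 2) ^ (q / 2) ≤
      (B : ℝ≥0∞) ^ (q / 2) * (2 ^ (q / 2 - 1) * ((C + C) * W)) := by
    have hBt : (B : ℝ≥0∞) ^ (q / 2) ≠ ⊤ := ENNReal.rpow_ne_top_of_nonneg (by linarith) (by simp)
    refine (lintegral_mono hsum).trans ?_
    rw [lintegral_const_mul' _ _ hBt, lintegral_const_mul' _ _ hp2,
      lintegral_add_left ((hFm true).pow_const _), lint_sw _ ((hFm false).pow_const _), add_mul]
    refine mul_le_mul_right (mul_le_mul_right (add_le_add (hFi true) (hFi false)) _) _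
  -- Khintchine's inequality
  have hElin : ∀ (ε : Fin N → Bool) ξ,
      E (fun x => ∑ k, (Pool.Agent.H728R3.SR.sg (ε k) : ℂ) * (s k).fn x) ξ =
      ∑ k, (Pool.Agent.H728R3.SR.sg (ε k) : ℂ) * Pool.Agent.H147R3.PE.ext (s k).fn ξ := fun ε ξ =>
    ext_lin Finset.univ _ _ (fun k _ => hfi k) ξ
  have hEm : ∀ ε : Fin N → Bool, Measurable fun ξ =>
      ‖E (fun x => ∑ k, (Pool.Agent.H728R3.SR.sg (ε k) : ℂ) * (s k).fn x) ξ‖ₑ ^ q := by
    intro ε
    simp only [hElin]
    exact (Finset.measurable_sum _ fun k _ => (ext_me (hfm k)).const_mul _).enorm.pow_const q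
  have hc0 : ((2 : ℝ≥0∞) ^ N) ≠ 0 := by positivity
  have hct : ((2 : ℝ≥0∞) ^ N) ≠ ⊤ := by simp
  rw [← lintegral_finsetSum _ fun ε _ => hEm ε]
  calc ((2 : ℝ≥0∞) ^ N)⁻¹ * ∫⁻ ξ, ∑ ε : Fin N → Bool,
        ‖E (fun x => ∑ k, (Pool.Agent.H728R3.SR.sg (ε k) : ℂ) * (s k).fn x) ξ‖ₑ ^ q
      ≤ ((2 : ℝ≥0∞) ^ N)⁻¹ * ∫⁻ ξ, 2 ^ N *
        (K * (∑ k, ‖Pool.Agent.H147R3.PE.ext (s k).fn ξ‖ₑ ^ 2) ^ (q / 2)) := by
        refine mul_le_mul_right (lintegral_mono fun ξ => ?_) _
        simp only [hElin]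
        have h := Pool.Agent.H728R3.SR.khinchine q (by linarith)
          (fun k => Pool.Agent.H147R3.PE.ext (s k).fn ξ)
        rw [Fintype.card_fin] at h
        exact h
    _ = K * ∫⁻ ξ, (∑ k, ‖Pool.Agent.H147R3.PE.ext (s k).fn ξ‖ₑ ^ 2) ^ (q / 2) := by
        rw [lintegral_const_mul' _ _ hct, lintegral_const_mul' _ _ hKt, ← mul_assoc,
          ENNReal.inv_mul_cancel hc0 hct, one_mul]
    _ ≤ K * ((B : ℝ≥0∞) ^ (q / 2) * (2 ^ (q / 2 - 1) * ((C + C) * W))) :=
        mul_le_mul_right hsq _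
    _ = (K * (2 ^ (q / 2 - 1) * (C + C))) * (B : ℝ≥0∞) ^ (q / 2) * W := by ring
    _ ≤ _ := by
        refine mul_le_mul_left (mul_le_mul_left ?_ _) _
        exact le_self_add

end Pool.Agent.Results.MP_5ab805_an.RademacherStepSums
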