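import Mathlib
import Pool.Agent.Q167.RP.Three
set_option autoImplicit false

/-!
# The extension inequality in `ℝ³`, on average over signs, for sums of tensors

Let `q > 3`, `1 ≤ p` and `q < p (q - 2)` (that is `1/p < 1 - 2/q`: the open range of the extension
conjecture from `L^p` to `L^q` for the paraboloid in `ℝ³`; it contains `p = q` for all `q > 3`).
We consider `f_ε(u, v) = ∑_k ε_k F_k(u, v)`, `F_k(u, v) = ∫ a_k(u, l) b_k(v, l) dν(l)`, for instance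
`F_k(u, v) = a_k(u) b_k(v)`, for arbitrary functions `a_k`, `b_k` with values in `L²(ν)`, and show

`mean_ε ‖E f_ε‖_q ≤ C` if `∫ (∑_k ‖a_k(u)‖²)^(p/2) du ≤ 1` and `∫ ‖b_k(v)‖^p dv ≤ 1` for all `k`,

that is, by homogeneity,
`mean_ε ‖E f_ε‖_q^q ≤ C (∫ (∑_k ‖a_k(u)‖² B_k²)^(p/2) du)^(q/p)` with `B_k = ‖b_k‖_{L^p}`.
If `ν` is a point mass, `p = q` and `|b_k| = |b|` does not depend on `k`, then the right side is
comparable with `mean_ε ‖f_ε‖_q^q`, and this is the inequality `‖E f‖_q ≤ C ‖f‖_q` of the problem on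
average over the signs for all functions `f_ε(u, v) = ∑ ε_k a_k(u) b_k(v)`. For disjoint strips,
`a_k = 1_{I_k}` and `b_k ∈ L^q` arbitrary, the right side is `‖f_ε‖_q^q` as well.
-/

namespace Pool.Agent.Results.MP_5ab805_an.RandomTensorsLp

open MeasureTheory Set Complex
open scoped ENNReal NNReal

/-- The Fourier extension operator of the paraboloid in `ℝ³`,
`E f (x, y, t) = ∫ f(u, v) exp (- i (u x + v y + (u² + v²) t)) du dv`. -/
noncomputable def ext (f : ℝ × ℝ → ℂ) (x y t : ℝ) : ℂ :=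
  ∫ w : ℝ × ℝ, f w * cexp (-(I * ((w.1 * x + w.2 * y + (w.1 ^ 2 + w.2 ^ 2) * t : ℝ) : ℂ)))

/-- The function `f_ε(u, v) = ∑_k ε_k ∫ a_k(u, l) b_k(v, l) dν(l)`; the sign `ε_k` is `1` if
`ε k = true` and `-1` otherwise. -/
noncomputable def tensors {Λ : Type} [MeasurableSpace Λ] (ν : Measure Λ) {N : ℕ}
    (a b : Fin N → ℝ → Λ → ℂ) (ε : Fin N → Bool) (w : ℝ × ℝ) : ℂ :=
  ∑ k, (if ε k then 1 else -1) * ∫ l, a k w.1 l * b k w.2 l ∂ν

theorem ext_eq (f : ℝ × ℝ → ℂ) (x y t : ℝ) : ext f x y t = Pool.Agent.W771.EE f x y t := by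
  unfold ext Pool.Agent.W771.EE Pool.Agent.W771.ph
  congr 1
  ext w
  rw [← Complex.exp_add]
  congr 2
  push_cast
  ring

/-- **Random sums of tensors, `L^p` to `L^q` in the full range.** -/
theorem result (q p : ℝ) (hq : 3 < q) (hp : 1 ≤ p) (hpq : q < p * (q - 2)) :
    ∃ C : ℝ≥0, ∀ (Λ : Type) [MeasurableSpace Λ] (ν : Measure Λ) [SFinite ν] (N : ℕ)
      (a b : Fin N → ℝ → Λ → ℂ),
      (∀ k, Measurable (Function.uncurry (a k))) → (∀ k, Measurable (Function.uncurry (b k))) →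
      (∀ k u, u ∉ Icc (-(1 / 2) : ℝ) (1 / 2) → ∀ l, a k u l = 0) →
      (∀ k v, v ∉ Icc (-(1 / 2) : ℝ) (1 / 2) → ∀ l, b k v l = 0) →
      (∫⁻ u in Icc (-(1 / 2) : ℝ) (1 / 2), (∑ k, ∫⁻ l, ‖a k u l‖ₑ ^ 2 ∂ν) ^ (p / 2) ≤ 1) →
      (∀ k, ∫⁻ v in Icc (-(1 / 2) : ℝ) (1 / 2), (∫⁻ l, ‖b k v l‖ₑ ^ 2 ∂ν) ^ (p / 2) ≤ 1) →
      ((2 : ℝ≥0∞) ^ N)⁻¹ * ∑ ε : Fin N → Bool,
        ∫⁻ t, ∫⁻ x, ∫⁻ y, ‖ext (tensors ν a b ε) x y t‖ₑ ^ q ≤ C := by
  obtain ⟨C, hC, hCC⟩ := Pool.Agent.Q167.RP.rp_avg q p hq hp hpq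
  refine ⟨C.toNNReal, ?_⟩
  intro Λ _ ν _ N a b ha hb hza hzb hA hB
  rw [ENNReal.coe_toNNReal hC]
  have h1 := hCC Λ ν N a b ha hb hza hzb hA hB
  have h2 : ∀ ε : Fin N → Bool, tensors ν a b ε = fun w => ∑ k,
      (Pool.Agent.H728R3.SR.sg (ε k) : ℂ) * Pool.Agent.W771.FF ν (a k) (b k) w := by
    intro ε
    ext w
    unfold tensors Pool.Agent.W771.FF
    apply Finset.sum_congr rfl
    intro k _
    have h3 : ((if ε k then 1 else -1 : ℂ)) = (Pool.Agent.H728R3.SR.sg (ε k) : ℂ) := by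
      unfold Pool.Agent.H728R3.SR.sg
      split_ifs <;> simp
    rw [h3]
  simp only [h2, ext_eq]
  exact h1

end Pool.Agent.Results.MP_5ab805_an.RandomTensorsLp
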