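import Mathlib
import Pool.Agent.Q162.PE.Strong

/-!
# Weighted mixed norm estimates for the extensions of the anisotropic dilates of a function

`E` is the Fourier extension operator of the paraboloid in `ℝ³`.  For `f` on the square `[-1,1]²`
and `l ≥ 1` let `f_l(x) = f(x₁, l x₂)`, extended by zero.  Let `μ` be a measure on the line with
`μ [a, a + r] ≤ A r ^ α`, `α ≤ 1`.  If `γ ≥ 0`, `p > 1`, `p (1 + γ) < 1 + α` and `q > 2 + 2 / p`
then `∫_{[1,L]} (∫ (1 + |ξ₃|)^γ |E f_l(ξ)|^q dξ)^p dμ(l) ≤ K (∫ |f|^q)^p` for all `f`.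

For Lebesgue measure (`α = 1`) this covers all exponents `q > 3 + γ`, `0 ≤ γ < 1`; with `γ = 0` it
is the full range `q > 3` of the extension conjecture, with all `p < 2`.
-/

set_option autoImplicit false

namespace Pool.Agent.Results.MP_5ab805_an.WeightedDilates

open MeasureTheory Set Complex
open scoped ENNReal NNReal

/-- The Fourier extension operator of the paraboloid in `ℝ³`:
`E f(ξ) = ∫ exp(-i (x₁ ξ₁ + x₂ ξ₂ + (x₁² + x₂²) ξ₃)) f(x) dx`. -/
noncomputable def ext (f : ℝ × ℝ → ℂ) (ξ : ℝ × ℝ × ℝ) : ℂ :=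
  ∫ x : ℝ × ℝ, cexp (-I * (x.1 * ξ.1 + x.2 * ξ.2.1 + (x.1 ^ 2 + x.2 ^ 2) * ξ.2.2)) * f x

/-- The dilate `f_l(x) = f(x₁, l x₂)` if this point lies in the square `[-1,1]²`, and `0`
otherwise. -/
noncomputable def dilate (l : ℝ) (f : ℝ × ℝ → ℂ) (x : ℝ × ℝ) : ℂ :=
  (Icc (-1) 1).indicator f (x.1, l * x.2)

lemma mem_sq (x : ℝ × ℝ) : x ∈ Icc (-1 : ℝ × ℝ) 1 ↔ |x.1| ≤ 1 ∧ |x.2| ≤ 1 := by
  rw [mem_Icc, Prod.le_def, Prod.le_def, abs_le, abs_le]
  simp only [Prod.fst_neg, Prod.fst_one, Prod.snd_neg, Prod.snd_one]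
  tauto

theorem result (α γ p q A L : ℝ) (hA : 0 ≤ A) (hα : α ≤ 1) (hγ : 0 ≤ γ) (hp : 1 < p)
    (hpα : p * (1 + γ) < 1 + α) (hq : 2 + 2 / p < q) :
    ∃ K : ℝ≥0, ∀ μ : Measure ℝ,
      (∀ a r : ℝ, 0 < r → μ (Icc a (a + r)) ≤ ENNReal.ofReal (A * r ^ α)) →
      ∀ f : ℝ × ℝ → ℂ, AEMeasurable f (volume.restrict (Icc (-1) 1)) →
        ∫⁻ l in Icc 1 L, (∫⁻ ξ : ℝ × ℝ × ℝ,
            ENNReal.ofReal ((1 + |ξ.2.2|) ^ γ) * ‖ext (dilate l f) ξ‖ₑ ^ q) ^ p ∂μ ≤
          K * (∫⁻ x in Icc (-1 : ℝ × ℝ) 1, ‖f x‖ₑ ^ q) ^ p := by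
  obtain ⟨K, hK, H⟩ := Pool.Agent.Q162.PE.strong α γ p q A (max L 1) hA hα hγ hp hpα hq
    (le_max_right _ _)
  refine ⟨K.toNNReal, fun μ hμ f hf => ?_⟩
  rw [ENNReal.coe_toNNReal hK]
  have hq0 : 0 < q := by
    have : 0 < 2 / p := by positivity
    linarith
  set g : ℝ × ℝ → ℂ := (Icc (-1 : ℝ × ℝ) 1).indicator (hf.mk f) with hg
  have hgm : Measurable g := hf.measurable_mk.indicator measurableSet_Icc
  have hgS : Pool.Agent.H147R3.PE.S2 g := by
    refine ⟨hgm, fun x hx => ?_, fun x hx => ?_⟩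
    · rw [hg, indicator_of_notMem]
      intro h
      exact absurd ((mem_sq x).1 h).1 (not_le.2 hx)
    · rw [hg, indicator_of_notMem]
      intro h
      exact absurd ((mem_sq x).1 h).2 (not_le.2 hx)
  have hfg : (Icc (-1 : ℝ × ℝ) 1).indicator f =ᵐ[volume] g := by
    have h1 := (ae_restrict_iff' (measurableSet_Icc (a := (-1 : ℝ × ℝ)) (b := 1))).1 hf.ae_eq_mk
    filter_upwards [h1] with x hx
    by_cases hx2 : x ∈ Icc (-1 : ℝ × ℝ) 1
    · rw [hg, indicator_of_mem hx2, indicator_of_mem hx2, hx hx2]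
    · rw [hg, indicator_of_notMem hx2, indicator_of_notMem hx2]
  -- the dilates agree almost everywhere
  have hdil : ∀ l : ℝ, 1 ≤ l → dilate l f =ᵐ[volume] Pool.Agent.H147R3.PE.dil l g := by
    intro l hl
    obtain ⟨Z, hZs, hZm, hZ0⟩ := exists_measurable_superset_of_null
      (show volume {x | ¬ (Icc (-1 : ℝ × ℝ) 1).indicator f x = g x} = 0 from hfg)
    have h1 : ∫⁻ x : ℝ × ℝ, Z.indicator (fun _ => (1 : ℝ≥0∞)) (x.1, l * x.2) = 0 := by
      refine le_antisymm ((Pool.Agent.H147R3.PE.dil_lint (Z.indicator (fun _ => (1 : ℝ≥0∞)))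
        (measurable_const.indicator hZm) l hl).trans ?_) (zero_le)
      rw [lintegral_indicator hZm]
      simp [hZ0]
    have hmm : Measurable fun x : ℝ × ℝ => Z.indicator (fun _ => (1 : ℝ≥0∞)) (x.1, l * x.2) :=
      (measurable_const.indicator hZm).comp (by fun_prop)
    rw [lintegral_eq_zero_iff hmm] at h1
    filter_upwards [h1] with x hx
    have h2 : (x.1, l * x.2) ∉ Z := by
      intro h
      have h3 : Z.indicator (fun _ => (1 : ℝ≥0∞)) (x.1, l * x.2) = 0 := hx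
      rw [indicator_of_mem h] at h3
      exact one_ne_zero h3
    have h4 : (Icc (-1 : ℝ × ℝ) 1).indicator f (x.1, l * x.2) = g (x.1, l * x.2) := by
      by_contra h5
      exact h2 (hZs h5)
    exact h4
  have hext : ∀ l : ℝ, 1 ≤ l → ∀ ξ, ext (dilate l f) ξ =
      Pool.Agent.H147R3.PE.ext (Pool.Agent.H147R3.PE.dil l g) ξ := by
    intro l hl ξ
    unfold ext Pool.Agent.H147R3.PE.ext
    apply integral_congr_ae
    filter_upwards [hdil l hl] with x hx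
    rw [hx]
  have hnorm : ∫⁻ x, ‖g x‖ₑ ^ q = ∫⁻ x in Icc (-1 : ℝ × ℝ) 1, ‖f x‖ₑ ^ q := by
    rw [← lintegral_indicator measurableSet_Icc]
    apply lintegral_congr_ae
    filter_upwards [hfg] with x hx
    rw [← hx]
    by_cases hx2 : x ∈ Icc (-1 : ℝ × ℝ) 1
    · rw [indicator_of_mem hx2, indicator_of_mem hx2]
    · rw [indicator_of_notMem hx2, indicator_of_notMem hx2, enorm_zero,
        ENNReal.zero_rpow_of_pos hq0]
  have hfin := H μ hμ g hgS
  rw [hnorm] at hfin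
  refine le_trans ?_ hfin
  refine le_trans (le_of_eq ?_) (lintegral_mono_set (Icc_subset_Icc le_rfl (le_max_left L 1)))
  apply setLIntegral_congr_fun measurableSet_Icc
  intro l hl
  simp only
  unfold Pool.Agent.Q162.PE.JJ Pool.Agent.H147R3.PE.wt
  simp only [hext l hl.1]

end Pool.Agent.Results.MP_5ab805_an.WeightedDilates
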